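import Pool.Agent.helper60.EPT.Spec

set_option autoImplicit false

namespace Pool.Agent.EPT

open D

theorem PBC_le {s c N T : ℕ} (h : T ≤ (s + c) ^ c) (hN : s + c ≤ N) : T ≤ N ^ c :=
  h.trans (Nat.pow_le_pow_left hN c)

theorem PBC_pow (S T : D → ℕ) (d : ℕ) (hT : PB S T) : PB S fun x => (T x + d) ^ d := by
  obtain ⟨c, hc⟩ := hT
  refine ⟨(c + 2) * d + c + d + 2, fun x => ?_⟩
  generalize hN : S x + ((c + 2) * d + c + d + 2) = N
  have h1 : T x ≤ N ^ c := PBC_le (hc x) (by omega)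
  have h2 : N ^ c ≤ N ^ (c + 1) := Nat.pow_le_pow_right (by omega) (by omega)
  have h3 : d ≤ N ^ (c + 1) := by
    calc d ≤ N := by omega
      _ = N ^ 1 := (pow_one N).symm
      _ ≤ N ^ (c + 1) := Nat.pow_le_pow_right (by omega) (by omega)
  have h4 : T x + d ≤ N ^ (c + 2) := by
    have h5 : 2 * N ^ (c + 1) ≤ N * N ^ (c + 1) := Nat.mul_le_mul_right _ (by omega)
    have h6 : N * N ^ (c + 1) = N ^ (c + 2) := by ring
    omega
  calc (T x + d) ^ d ≤ (N ^ (c + 2)) ^ d := Nat.pow_le_pow_left h4 d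
    _ = N ^ ((c + 2) * d) := by rw [← pow_mul]
    _ ≤ N ^ ((c + 2) * d + c + d + 2) := Nat.pow_le_pow_right (by omega) (by omega)

theorem PBC : PBC_stmt := by
  refine ⟨fun S d => ⟨d + 1, fun x => ?_⟩, fun S => ⟨1, fun x => ?_⟩, fun S T T' hT hT' => ?_, PBC_pow,
    fun S T T' hT' h => ?_, fun S T T' hT hT' => ?_⟩
  · show d ≤ (S x + (d + 1)) ^ (d + 1)
    calc d ≤ (S x + (d + 1)) ^ 1 := by rw [pow_one]; omega
      _ ≤ (S x + (d + 1)) ^ (d + 1) := Nat.pow_le_pow_right (by omega) (by omega)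
  · rw [pow_one]
    omega
  · obtain ⟨c, hc⟩ := hT
    obtain ⟨c', hc'⟩ := hT'
    have key : ∀ x, T x ≤ (S x + (c + c' + 2)) ^ c ∧ T' x ≤ (S x + (c + c' + 2)) ^ c' :=
      fun x => ⟨PBC_le (hc x) (by omega), PBC_le (hc' x) (by omega)⟩
    refine ⟨⟨c + c' + 2, fun x => ?_⟩, ⟨c + c' + 2, fun x => ?_⟩⟩
    · obtain ⟨h1, h2⟩ := key x
      show T x + T' x ≤ _
      generalize hN : S x + (c + c' + 2) = N at *
      have h3 : N ^ c ≤ N ^ (c + c') := Nat.pow_le_pow_right (by omega) (by omega)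
      have h4 : N ^ c' ≤ N ^ (c + c') := Nat.pow_le_pow_right (by omega) (by omega)
      have h5 : 2 * N ^ (c + c') ≤ N * N ^ (c + c') := Nat.mul_le_mul_right _ (by omega)
      have h6 : N * N ^ (c + c') = N ^ (c + c' + 1) := by ring
      have h7 : N ^ (c + c' + 1) ≤ N ^ (c + c' + 2) := Nat.pow_le_pow_right (by omega) (by omega)
      omega
    · obtain ⟨h1, h2⟩ := key x
      show T x * T' x ≤ _
      generalize hN : S x + (c + c' + 2) = N at *
      calc T x * T' x ≤ N ^ c * N ^ c' := Nat.mul_le_mul h1 h2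
        _ = N ^ (c + c') := by rw [← pow_add]
        _ ≤ N ^ (c + c' + 2) := Nat.pow_le_pow_right (by omega) (by omega)
  · obtain ⟨c, hc⟩ := hT'
    exact ⟨c, fun x => (h x).trans (hc x)⟩
  · obtain ⟨c, hc⟩ := hT'
    obtain ⟨e, he⟩ := PBC_pow S T c hT
    exact ⟨e, fun x => (hc x).trans (he x)⟩

end Pool.Agent.EPT
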