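import Pool.Agent.helper60.EPT.Spec

set_option autoImplicit false

namespace Pool.Agent.EPT

open D

theorem RCO (hPBC : PBC_stmt) : RCO_stmt := by
  obtain ⟨h1, h2, h3, h4, h5, h6⟩ := hPBC
  intro S hS f g hf hg
  obtain ⟨p, c, hp⟩ := hf
  obtain ⟨q, d, hq⟩ := hg
  have hB : ∀ k : ℕ, PB S fun x => (S x + k) ^ k := fun k => h4 S S k (h2 S)
  refine ⟨?_, fun c' hc => ?_⟩
  · obtain ⟨e, he⟩ := (h3 S _ _ ((h3 S _ _ (hB c) (hB d)).1) hS).1
    refine ⟨.pair p q, e, fun x => ?_⟩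
    obtain ⟨s, hs, hs'⟩ := hp x
    obtain ⟨t, ht, ht'⟩ := hq x
    exact ⟨s + t + x.size, (Nat.add_le_add_right (Nat.add_le_add hs ht) _).trans (he x), Run.pair p q x _ _ s t hs' ht'⟩
  · obtain ⟨r, k, hr⟩ := hc
    obtain ⟨e, he⟩ := (h3 S _ _ ((h3 S _ _ (hB k) ((h3 S _ _ (hB c) (hB d)).1)).1) hS).1
    refine ⟨.cond r p q, e, fun x => ?_⟩
    obtain ⟨u, hu, hu'⟩ := hr x
    obtain ⟨s, hs, hs'⟩ := hp x
    obtain ⟨t, ht, ht'⟩ := hq x
    have he' := he x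
    simp only at he'
    show ∃ t, t ≤ (S x + e) ^ e ∧ Run (.cond r p q) x (if c' x = nil then g x else f x) t
    by_cases h0 : c' x = nil
    · rw [if_pos h0]
      refine ⟨u + t + x.size, ?_, Run.condf r p q x _ u t (h0 ▸ hu') ht'⟩
      omega
    · rw [if_neg h0]
      refine ⟨u + s + x.size, ?_, Run.condt r p q x _ _ u s hu' h0 hs'⟩
      omega

end Pool.Agent.EPT
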