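import Pool.Agent.helper60.EPT.Spec

set_option autoImplicit false

namespace Pool.Agent.EPT

open D

theorem RSZ : RSZ_stmt := by
  intro p x y t h
  induction h with
  | idt x => exact le_rfl
  | emp x => exact size_pos x
  | hd x => exact size_fst x
  | tl x => exact size_snd x
  | eqt x =>
    have h1 := size_pos x
    split_ifs
    · show one.size ≤ _
      have : one.size = 3 := rfl
      omega
    · show nil.size ≤ _
      have : nil.size = 1 := rfl
      omega
  | pair p q x y z s t _ _ ih1 ih2 =>
    have h1 := size_pos x
    rw [size_cons]
    omega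
  | comp q p x y z s t _ _ ih1 ih2 => omega
  | condt c p q x b y s t _ _ _ ih1 ih2 => omega
  | condf c p q x y s t _ _ ih1 ih2 => omega
  | loopt c p x b y z s t u _ _ _ _ ih1 ih2 ih3 => omega
  | loopf c p x s _ ih => omega

end Pool.Agent.EPT
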